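import Pool.Agent.Lib_helper93.Zab.Structure

set_option autoImplicit false

namespace Pool.Agent.Zab

open Polynomial ComplexConjugate

section General

variable {R : Type*} [CommRing R]

/-- `u`, `u - c`, `u - c ^ 2` are units and `z - 1` divides `u - 1`. -/
def AA (c z u : R) : Prop :=
  (∃ v, u * v = 1) ∧ (∃ v, (u + -c) * v = 1) ∧ (∃ v, (u + -(c * c)) * v = 1) ∧
    ∃ v, u + -1 = (z + -1) * v

/-- The set defined by `AA c z` is closed under multiplication by `z` and `1 / z`. -/
def PP (c z : R) : Prop :=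
  ∃ z', z * z' = 1 ∧ ∀ u, AA c z u → AA c z (u * z) ∧ AA c z (u * z')

/-- The property that defines the integers. -/
def ZZ (x : R) : Prop :=
  ∀ c, c * c * (c * c) + -(c * c) + 1 = 0 → ∀ z, PP c z →
    ∃ y, AA c z y ∧ ∃ v, x * (z + -1) + -(y + -1) = (z + -1) * (z + -1) * v

theorem pow_expand' (z : R) (k : ℕ) : ∃ F : R, z ^ k = 1 + (z - 1) * (k + (z - 1) * F) := by
  induction k with
  | zero => exact ⟨0, by simp⟩
  | succ k ih =>
    obtain ⟨F, e⟩ := ih
    refine ⟨F + k + (z - 1) * F, ?_⟩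
    rw [pow_succ, e]
    push_cast
    ring

theorem AA_one {c : R} (hc : c * c * (c * c) + -(c * c) + 1 = 0) (z : R) : AA c z 1 := by
  refine ⟨⟨1, by ring⟩, ⟨c * c * (1 + c), ?_⟩, ⟨c * c, ?_⟩, ⟨0, by ring⟩⟩
  · linear_combination -hc
  · linear_combination -hc

theorem ZZ_intCast (n : ℤ) : ZZ (n : R) := by
  intro c hc z ⟨z', hz, h⟩
  have h1 : ∀ k : ℕ, AA c z (z ^ k) := by
    intro k
    induction k with
    | zero => rw [pow_zero]; exact AA_one hc z
    | succ k ih => rw [pow_succ]; exact (h _ ih).1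
  have h2 : ∀ k : ℕ, AA c z (z' ^ k) := by
    intro k
    induction k with
    | zero => rw [pow_zero]; exact AA_one hc z
    | succ k ih => rw [pow_succ]; exact (h _ ih).2
  obtain ⟨k, rfl | rfl⟩ := n.eq_nat_or_neg
  · obtain ⟨F, e⟩ := pow_expand' z k
    refine ⟨z ^ k, h1 k, -F, ?_⟩
    rw [e]
    push_cast
    ring
  · obtain ⟨F, e⟩ := pow_expand' z' k
    refine ⟨z' ^ k, h2 k, -(k * z') - z' ^ 2 * F, ?_⟩
    rw [e]
    push_cast
    have hz' : z' - 1 = -(z' * (z - 1)) := by linear_combination hz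
    rw [hz']
    linear_combination ((k : R) * (z - 1)) * hz
end General

end Pool.Agent.Zab
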