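import Pool.Agent.Lib_helper93.Zab.Formulas

set_option autoImplicit false

namespace Pool.Agent.Zab

open Polynomial ComplexConjugate

/-- The ring of integers of `ℚ^ab`. -/
noncomputable def OO : Subring ℂ := (integralClosure ℤ ℂ).toSubring ⊓ Kab.toSubring

theorem OO_int (x : OO) : IsIntegral ℤ (x : ℂ) := x.2.1

theorem OO_mem (x : OO) : (x : ℂ) ∈ Kab := x.2.2

theorem root_mem_OO {z : ℂ} {n : ℕ} (hn : 0 < n) (h : z ^ n = 1) : z ∈ OO :=
  ⟨isIntegral_of_pow_eq_one hn h, Subfield.subset_closure ⟨n, hn, h⟩⟩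

theorem exists_c : ∃ c : OO, c * c * (c * c) + -(c * c) + 1 = 0 := by
  have h3 : ((Real.sqrt 3 : ℝ) : ℂ) ^ 2 = 3 := by
    rw [← Complex.ofReal_pow, Real.sq_sqrt (by norm_num)]
    norm_num
  obtain ⟨c, hc⟩ : ∃ c : ℂ, c ^ 4 - c ^ 2 + 1 = 0 := by
    refine ⟨(Real.sqrt 3 : ℂ) / 2 + Complex.I / 2, ?_⟩
    have e1 : ((Real.sqrt 3 : ℂ) / 2 + Complex.I / 2) ^ 2 =
        1 / 2 + (Real.sqrt 3 : ℂ) / 2 * Complex.I := by
      have : ((Real.sqrt 3 : ℂ) / 2 + Complex.I / 2) ^ 2 =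
        (Real.sqrt 3 : ℂ) ^ 2 / 4 + Complex.I ^ 2 / 4 + (Real.sqrt 3 : ℂ) / 2 * Complex.I := by ring
      rw [this, h3, Complex.I_sq]
      ring
    have e2 : ((Real.sqrt 3 : ℂ) / 2 + Complex.I / 2) ^ 4 =
        -1 / 2 + (Real.sqrt 3 : ℂ) / 2 * Complex.I := by
      have : ((Real.sqrt 3 : ℂ) / 2 + Complex.I / 2) ^ 4 =
        (((Real.sqrt 3 : ℂ) / 2 + Complex.I / 2) ^ 2) ^ 2 := by ring
      rw [this, e1]
      have : (1 / 2 + (Real.sqrt 3 : ℂ) / 2 * Complex.I) ^ 2 =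
        1 / 4 + (Real.sqrt 3 : ℂ) ^ 2 / 4 * Complex.I ^ 2 + (Real.sqrt 3 : ℂ) / 2 * Complex.I := by
        ring
      rw [this, h3, Complex.I_sq]
      ring
    rw [e1, e2]
    ring
  have hc6 : c ^ 6 = -1 := by linear_combination (c ^ 2 + 1) * hc
  have hc12 : c ^ 12 = 1 := by
    have : c ^ 12 = (c ^ 6) ^ 2 := by ring
    rw [this, hc6]
    norm_num
  refine ⟨⟨c, root_mem_OO (by norm_num) hc12⟩, Subtype.ext ?_⟩
  show c * c * (c * c) + -(c * c) + 1 = 0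
  linear_combination hc

theorem pow_eq_one_of_AA {p : ℕ} (hp : p.Prime) (h12 : p % 12 = 5) {ζ c u : OO}
    (hζ : ζ ^ p = 1) (hζ1 : ζ ≠ 1) (hc : c * c * (c * c) + -(c * c) + 1 = 0)
    (h : AA c ζ u) : u ^ p = 1 := by
  obtain ⟨⟨u', e⟩, ⟨v₁, e₁⟩, ⟨v₂, e₂⟩, ⟨w, ew⟩⟩ := h
  apply Subtype.ext
  have hζ' : (ζ : ℂ) ^ p = 1 := congrArg Subtype.val hζ
  have hc' : (c : ℂ) * c * (c * c) + -(c * c) + 1 = 0 := congrArg Subtype.val hc
  have e' : (u : ℂ) * u' = 1 := congrArg Subtype.val e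
  have e₁' : ((u : ℂ) + -c) * v₁ = 1 := congrArg Subtype.val e₁
  have e₂' : ((u : ℂ) + -(c * c)) * v₂ = 1 := congrArg Subtype.val e₂
  have ew' : (u : ℂ) + -1 = (ζ + -1) * w := congrArg Subtype.val ew
  exact pow_eq_one_of_units hp h12 (c := c) (u' := u') (v₁ := v₁) (v₂ := v₂) (w := w) hζ'
    (fun h => hζ1 (Subtype.ext h)) (by linear_combination hc') (OO_mem c) (OO_mem u) (OO_int u)
    (OO_int u') (OO_int v₁) (OO_int v₂) (OO_int w) e' (by linear_combination e₁')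
    (by linear_combination e₂') (by linear_combination ew')

theorem AA_of_pow_eq_one {R : Type*} [CommRing R] [IsDomain R] {p : ℕ} (hp : p.Prime)
    (h12 : p % 12 = 5) {ζ c u : R}
    (hζ : ζ ^ p = 1) (hζ1 : ζ ≠ 1) (hc : c * c * (c * c) + -(c * c) + 1 = 0)
    (h : u ^ p = 1) : AA c ζ u := by
  have hc6 : c ^ 6 = -1 := by linear_combination (c ^ 2 + 1) * hc
  have hc12 : c ^ 12 = 1 := by
    have : c ^ 12 = (c ^ 6) ^ 2 := by ring
    rw [this, hc6]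
    norm_num
  have hcp : c ^ p = c ^ 5 := by
    have : p = 12 * (p / 12) + 5 := by omega
    rw [this, pow_add, pow_mul, hc12, one_pow, one_mul]
  refine ⟨⟨u ^ (p - 1), ?_⟩, ?_, ?_, ?_⟩
  · rw [← pow_succ', Nat.sub_add_cancel hp.one_le, h]
  · obtain ⟨v, hv⟩ := sub_dvd_pow_sub_pow u c p
    rw [h, hcp] at hv
    refine ⟨v * (c ^ 10 * (1 + c ^ 5)), ?_⟩
    have h1 : (1 - c ^ 5) * (c ^ 10 * (1 + c ^ 5)) = 1 := by
      have : (1 - c ^ 5) * (c ^ 10 * (1 + c ^ 5)) = c ^ 6 * c ^ 4 - c ^ 6 * c ^ 6 * c ^ 6 * c ^ 2 := by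
        ring
      rw [this, hc6]
      linear_combination -hc
    rw [← mul_assoc, show u + -c = u - c by ring, ← hv, h1]
  · obtain ⟨v, hv⟩ := sub_dvd_pow_sub_pow u (c * c) p
    have h2 : (c * c) ^ p = c ^ 6 * c ^ 4 := by
      rw [mul_pow, hcp]
      ring
    rw [h, h2, hc6] at hv
    refine ⟨v * (-(c ^ 4)), ?_⟩
    rw [← mul_assoc, show u + -(c * c) = u - c * c by ring, ← hv]
    linear_combination -hc - c ^ 2 * hc6
  · have : Fact p.Prime := ⟨hp⟩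
    have hprim : IsPrimitiveRoot ζ p := by
      have ho : orderOf ζ = p := orderOf_eq_prime hζ hζ1
      rw [← ho]
      exact IsPrimitiveRoot.orderOf ζ
    have hpos : NeZero p := ⟨hp.ne_zero⟩
    obtain ⟨k, -, rfl⟩ := hprim.eq_pow_of_pow_eq_one h
    obtain ⟨F, e⟩ := pow_expand' ζ k
    refine ⟨k + (ζ - 1) * F, ?_⟩
    rw [e]
    ring


theorem PP_zeta {p : ℕ} (hp : p.Prime) (h12 : p % 12 = 5) {ζ c : OO}
    (hζ : ζ ^ p = 1) (hζ1 : ζ ≠ 1) (hc : c * c * (c * c) + -(c * c) + 1 = 0) : PP c ζ := by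
  refine ⟨ζ ^ (p - 1), ?_, ?_⟩
  · rw [← pow_succ', Nat.sub_add_cancel hp.one_le, hζ]
  · intro u hu
    have h1 := pow_eq_one_of_AA hp h12 hζ hζ1 hc hu
    constructor
    · apply AA_of_pow_eq_one hp h12 hζ hζ1 hc
      rw [mul_pow, h1, hζ, one_mul]
    · apply AA_of_pow_eq_one hp h12 hζ hζ1 hc
      rw [mul_pow, h1, ← pow_mul, mul_comm (p - 1) p, pow_mul, hζ, one_pow, one_mul]

theorem exists_prime (N : ℕ) : ∃ p, p.Prime ∧ N < p ∧ p % 12 = 5 := by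
  have h5 : IsUnit (5 : ZMod 12) := by
    apply IsUnit.of_mul_eq_one (5 : ZMod 12)
    decide
  obtain ⟨p, h1, h2, h3⟩ := Nat.forall_exists_prime_gt_and_eq_mod h5 N
  refine ⟨p, h2, h1, ?_⟩
  have h4 : ((p : ℕ) : ZMod 12) = ((5 : ℕ) : ZMod 12) := h3
  rw [ZMod.natCast_eq_natCast_iff'] at h4
  exact h4

theorem exists_zeta {p : ℕ} (hp : p.Prime) : ∃ ζ : OO, ζ ^ p = 1 ∧ ζ ≠ 1 := by
  have h := Complex.isPrimitiveRoot_exp p hp.ne_zero
  refine ⟨⟨_, root_mem_OO hp.pos h.pow_eq_one⟩, Subtype.ext h.pow_eq_one, ?_⟩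
  intro h1
  exact h.ne_one hp.one_lt (congrArg Subtype.val h1)

theorem sub_hom_mem_J {x : OO} (hx : ZZ x) {p : ℕ} (hp : p.Prime) (h12 : p % 12 = 5)
    (ψ : Kab →+* ℂ) : (x : ℂ) - ψ ⟨x, OO_mem x⟩ ∈ J p := by
  obtain ⟨c, hc⟩ := exists_c
  obtain ⟨ζ, hζ, hζ1⟩ := exists_zeta hp
  obtain ⟨y, hy, v, e⟩ := hx c hc ζ (PP_zeta hp h12 hζ hζ1 hc)
  have hy1 := pow_eq_one_of_AA hp h12 hζ hζ1 hc hy
  have : Fact p.Prime := ⟨hp⟩
  have hprim : IsPrimitiveRoot ζ p := by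
    have ho : orderOf ζ = p := orderOf_eq_prime hζ hζ1
    rw [← ho]
    exact IsPrimitiveRoot.orderOf ζ
  have hpos : NeZero p := ⟨hp.ne_zero⟩
  obtain ⟨k, -, rfl⟩ := hprim.eq_pow_of_pow_eq_one hy1
  obtain ⟨F, eF⟩ := pow_expand' ζ k
  have hz1 : ζ - 1 ≠ 0 := sub_ne_zero.mpr hζ1
  have e2 : x = k + (ζ - 1) * (F + v) := by
    apply mul_left_cancel₀ hz1
    rw [eF] at e
    linear_combination e
  have hJ1 : ((ζ : ℂ) - 1) * ((F : ℂ) + v) ∈ J p := by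
    apply J_mul (zeta_mem_J hp (by rintro rfl; omega) (congrArg Subtype.val hζ))
    exact (OO_int F).add (OO_int v)
  have hmem : ((ζ : ℂ) - 1) * ((F : ℂ) + v) ∈ Kab :=
    Subfield.mul_mem _ (Subfield.sub_mem _ (OO_mem ζ) (Subfield.one_mem _))
      (Subfield.add_mem _ (OO_mem F) (OO_mem v))
  have hJ2 := J_hom ψ hmem hJ1 hp.ne_zero
  have e3 : (x : ℂ) = k + ((ζ : ℂ) - 1) * ((F : ℂ) + v) := by
    have := congrArg Subtype.val e2
    simpa using this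
  have e4 : (⟨x, OO_mem x⟩ : Kab) = (k : Kab) + ⟨((ζ : ℂ) - 1) * ((F : ℂ) + v), hmem⟩ := by
    apply Subtype.ext
    simpa using e3
  rw [e4, map_add, map_natCast]
  have e5 : (x : ℂ) - ((k : ℂ) + ψ ⟨((ζ : ℂ) - 1) * ((F : ℂ) + v), hmem⟩) =
      ((ζ : ℂ) - 1) * ((F : ℂ) + v) - ψ ⟨((ζ : ℂ) - 1) * ((F : ℂ) + v), hmem⟩ := by
    rw [e3]
    ring
  rw [e5]
  exact J_sub hJ1 hJ2

/-- The ring `ℤ` is first-order definable in the ring of integers of `ℚ^ab`. -/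
theorem ZZ_iff (x : OO) : ZZ x ↔ ∃ n : ℤ, x = n := by
  constructor
  · intro hx
    have h1 : ∀ w : ℂ, aeval w (minpoly ℚ (x : ℂ)) = 0 → w = x := by
      intro w hw
      obtain ⟨ψ, hψ⟩ := exists_hom (OO_mem x) hw
      have hwi : IsIntegral ℤ w := by
        rw [← hψ]
        have h2 : IsIntegral ℤ (⟨x, OO_mem x⟩ : Kab) :=
          (isIntegral_algebraMap_iff (algebraMap Kab ℂ).injective).mp (OO_int x)
        exact map_isIntegral_int ψ h2
      have h2 : (x : ℂ) - w = 0 := by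
        apply eq_zero_of_J ((OO_int x).sub hwi)
        intro N
        obtain ⟨p, hp, hN, h12⟩ := exists_prime N
        refine ⟨p, hp, hN, ?_⟩
        rw [← hψ]
        exact sub_hom_mem_J hx hp h12 ψ
      linear_combination -h2
    have hint : IsIntegral ℚ (x : ℂ) := (OO_int x).tower_top
    have hirr := minpoly.irreducible hint
    have hsep : (minpoly ℚ (x : ℂ)).Separable := hirr.separable
    have hcard := card_rootSet_eq_natDegree (K := ℂ) hsep (IsAlgClosed.splits _)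
    have hsub : (minpoly ℚ (x : ℂ)).rootSet ℂ ⊆ {(x : ℂ)} := by
      intro w hw
      rw [mem_rootSet] at hw
      exact h1 w hw.2
    have hle : Fintype.card ((minpoly ℚ (x : ℂ)).rootSet ℂ) ≤ 1 := by
      rw [Fintype.card_le_one_iff]
      intro a b
      apply Subtype.ext
      rw [Set.mem_singleton_iff.mp (hsub a.2), Set.mem_singleton_iff.mp (hsub b.2)]
    have hdeg : (minpoly ℚ (x : ℂ)).degree = 1 := by
      rw [degree_eq_natDegree (minpoly.ne_zero hint)]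
      have : 0 < (minpoly ℚ (x : ℂ)).natDegree := minpoly.natDegree_pos hint
      have : (minpoly ℚ (x : ℂ)).natDegree = 1 := by omega
      rw [this]
      rfl
    obtain ⟨q, hq⟩ := minpoly.mem_range_of_degree_eq_one ℚ (x : ℂ) hdeg
    have hqi : IsIntegral ℤ q := by
      have := OO_int x
      rw [← hq] at this
      exact (isIntegral_algebraMap_iff (algebraMap ℚ ℂ).injective).mp this
    obtain ⟨n, hn⟩ := IsIntegrallyClosed.isIntegral_iff.mp hqi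
    refine ⟨n, Subtype.ext ?_⟩
    rw [← hq, ← hn]
    simp
  · rintro ⟨n, rfl⟩
    exact ZZ_intCast n

end Pool.Agent.Zab
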