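import Mathlib

set_option autoImplicit false

namespace Pool.Agent.Zab

open Polynomial IntermediateField ComplexConjugate

/-- The maximal abelian extension of `ℚ` in `ℂ`. -/
noncomputable def Kab : Subfield ℂ := Subfield.closure {z : ℂ | ∃ n : ℕ, 0 < n ∧ z ^ n = 1}

theorem norm_of_pow_eq_one {z : ℂ} {n : ℕ} (hn : 0 < n) (h : z ^ n = 1) : ‖z‖ = 1 := by
  have h1 : ‖z‖ ^ n = 1 := by rw [← norm_pow, h, norm_one]
  exact (pow_eq_one_iff_of_nonneg (norm_nonneg z) hn.ne').mp h1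

theorem conj_of_pow_eq_one {z : ℂ} {n : ℕ} (hn : 0 < n) (h : z ^ n = 1) : conj z = z⁻¹ := by
  have h1 := norm_of_pow_eq_one hn h
  rw [Complex.inv_def, Complex.normSq_eq_norm_sq, h1]
  simp

theorem isIntegral_of_pow_eq_one {z : ℂ} {n : ℕ} (hn : 0 < n) (h : z ^ n = 1) : IsIntegral ℤ z := by
  apply IsIntegral.of_pow hn
  rw [h]
  exact isIntegral_one

/-- Kronecker's theorem for complex numbers. -/
theorem kron {z : ℂ} (hz0 : z ≠ 0) (hz : IsIntegral ℤ z)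
    (h : ∀ w : ℂ, aeval w (minpoly ℚ z) = 0 → ‖w‖ ≤ 1) : ∃ n, 0 < n ∧ z ^ n = 1 := by
  let K := ℚ⟮z⟯
  let _ : NumberField K := {
    to_charZero := ℚ⟮z⟯.charZero,
    to_finiteDimensional := adjoin.finiteDimensional hz.tower_top }
  let y : K := ⟨z, mem_adjoin_simple_self ℚ z⟩
  suffices ∃ (n : ℕ) (_ : 0 < n), y ^ n = 1 by
    obtain ⟨n, hn₀, hn₁⟩ := this
    exact ⟨n, hn₀, congrArg (algebraMap K ℂ) hn₁⟩
  refine NumberField.Embeddings.pow_eq_one_of_norm_le_one (x := y) K ℂ (Subtype.coe_ne_coe.mp hz0)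
    (coe_isIntegral_iff.mp hz) fun φ ↦ h _ ?_
  have H (ψ : K →+* ℂ) : ψ ((aeval y) (minpoly ℚ z)) = (aeval (ψ y)) (minpoly ℚ z) := by
    conv_rhs => rw [← map_id (p := minpoly ℚ z)]
    exact (minpoly ℚ z).map_aeval_eq_aeval_map (by ext; simp) y
  rw [← H]
  have h2 : (algebraMap K ℂ) ((aeval y) (minpoly ℚ z)) = 0 := by
    rw [H]
    exact minpoly.aeval ℚ z
  have h3 : (aeval y) (minpoly ℚ z) = 0 := by
    rwa [map_eq_zero_iff _ (FaithfulSMul.algebraMap_injective ↥K ℂ)] at h2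
  rw [h3, map_zero]

theorem isAlgebraic_of_mem {x : ℂ} (hx : x ∈ Kab) : IsAlgebraic ℚ x := by
  unfold Kab at hx
  induction hx using Subfield.closure_induction with
  | mem x hx =>
    obtain ⟨n, hn, h⟩ := hx
    exact (isIntegral_of_pow_eq_one hn h).tower_top.isAlgebraic
  | one => exact isAlgebraic_one
  | add x y _ _ hx hy => exact hx.add hy
  | neg x _ hx => exact hx.neg
  | inv x _ hx => exact hx.inv
  | mul x y _ _ hx hy => exact hx.mul hy


instance : Algebra.IsAlgebraic ℚ Kab := by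
  constructor
  intro x
  have h := isAlgebraic_of_mem x.2
  have h2 : (x : ℂ) = algebraMap Kab ℂ x := rfl
  rw [h2] at h
  exact (isAlgebraic_algebraMap_iff (algebraMap Kab ℂ).injective).mp h

theorem minpoly_coe (x : Kab) : minpoly ℚ (x : ℂ) = minpoly ℚ x :=
  minpoly.algebraMap_eq (B' := ℂ) (algebraMap Kab ℂ).injective x

theorem exists_hom {x : ℂ} (hx : x ∈ Kab) {w : ℂ} (hw : aeval w (minpoly ℚ x) = 0) :
    ∃ ψ : Kab →+* ℂ, ψ ⟨x, hx⟩ = w := by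
  have h1 := Algebra.IsAlgebraic.range_eval_eq_rootSet_minpoly (F := ℚ) ℂ (⟨x, hx⟩ : Kab)
  have h2 : w ∈ (minpoly ℚ (⟨x, hx⟩ : Kab)).rootSet ℂ := by
    rw [mem_rootSet]
    refine ⟨minpoly.ne_zero ?_, ?_⟩
    · exact (Algebra.IsAlgebraic.isAlgebraic (R := ℚ) (⟨x, hx⟩ : Kab)).isIntegral
    · rw [← minpoly_coe]
      exact hw
  rw [← h1] at h2
  obtain ⟨ψ, hψ⟩ := h2
  exact ⟨ψ.toRingHom, hψ⟩

theorem conj_mem {x : ℂ} (hx : x ∈ Kab) : conj x ∈ Kab := by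
  unfold Kab at hx ⊢
  induction hx using Subfield.closure_induction with
  | mem x hx =>
    obtain ⟨n, hn, h⟩ := hx
    rw [conj_of_pow_eq_one hn h]
    exact Subfield.inv_mem _ (Subfield.subset_closure ⟨n, hn, h⟩)
  | one => rw [map_one]; exact Subfield.one_mem _
  | add x y _ _ hx hy => rw [map_add]; exact Subfield.add_mem _ hx hy
  | neg x _ hx => rw [map_neg]; exact Subfield.neg_mem _ hx
  | inv x _ hx => rw [map_inv₀]; exact Subfield.inv_mem _ hx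
  | mul x y _ _ hx hy => rw [map_mul]; exact Subfield.mul_mem _ hx hy

theorem hom_conj (ψ : Kab →+* ℂ) {x : ℂ} (hx : x ∈ Kab) :
    ψ ⟨conj x, conj_mem hx⟩ = conj (ψ ⟨x, hx⟩) := by
  have key : ∀ x (hx : x ∈ Subfield.closure {z : ℂ | ∃ n : ℕ, 0 < n ∧ z ^ n = 1}),
      ψ ⟨conj x, conj_mem hx⟩ = conj (ψ ⟨x, hx⟩) := by
    intro x hx
    induction hx using Subfield.closure_induction with
    | mem x hx =>
      obtain ⟨n, hn, h⟩ := hx
      have hx' : x ∈ Kab := Subfield.subset_closure ⟨n, hn, h⟩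
      have h1 : (⟨conj x, conj_mem hx'⟩ : Kab) = (⟨x, hx'⟩ : Kab)⁻¹ :=
        Subtype.ext (conj_of_pow_eq_one hn h)
      have h2 : (ψ ⟨x, hx'⟩) ^ n = 1 := by
        rw [← map_pow]
        have : (⟨x, hx'⟩ : Kab) ^ n = 1 := Subtype.ext h
        rw [this, map_one]
      show ψ ⟨conj x, conj_mem hx'⟩ = conj (ψ ⟨x, hx'⟩)
      rw [h1, map_inv₀, conj_of_pow_eq_one hn h2]
    | one =>
      have h1 : (⟨conj 1, conj_mem (Subfield.one_mem _)⟩ : Kab) = 1 := Subtype.ext (map_one _)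
      have h2 : (⟨1, Subfield.one_mem _⟩ : Kab) = 1 := rfl
      show ψ ⟨conj 1, conj_mem (Subfield.one_mem _)⟩ = conj (ψ ⟨1, Subfield.one_mem _⟩)
      rw [h1, h2, map_one, map_one]
    | add x y hx hy h1 h2 =>
      have e1 : (⟨conj (x + y), conj_mem (Subfield.add_mem _ hx hy)⟩ : Kab) =
        ⟨conj x, conj_mem hx⟩ + ⟨conj y, conj_mem hy⟩ := Subtype.ext (map_add _ _ _)
      have e2 : (⟨x + y, Subfield.add_mem _ hx hy⟩ : Kab) = ⟨x, hx⟩ + ⟨y, hy⟩ := rfl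
      show ψ ⟨conj (x + y), conj_mem (Subfield.add_mem _ hx hy)⟩ = conj (ψ ⟨x + y, _⟩)
      rw [e1, e2, map_add, map_add, map_add, h1, h2]
    | neg x hx h1 =>
      have e1 : (⟨conj (-x), conj_mem (Subfield.neg_mem _ hx)⟩ : Kab) =
        -⟨conj x, conj_mem hx⟩ := Subtype.ext (map_neg _ _)
      have e2 : (⟨-x, Subfield.neg_mem _ hx⟩ : Kab) = -⟨x, hx⟩ := rfl
      show ψ ⟨conj (-x), conj_mem (Subfield.neg_mem _ hx)⟩ = conj (ψ ⟨-x, _⟩)
      rw [e1, e2, map_neg, map_neg, map_neg, h1]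
    | inv x hx h1 =>
      have e1 : (⟨conj (x⁻¹), conj_mem (Subfield.inv_mem _ hx)⟩ : Kab) =
        (⟨conj x, conj_mem hx⟩)⁻¹ := Subtype.ext (map_inv₀ _ _)
      have e2 : (⟨x⁻¹, Subfield.inv_mem _ hx⟩ : Kab) = (⟨x, hx⟩)⁻¹ := rfl
      show ψ ⟨conj (x⁻¹), conj_mem (Subfield.inv_mem _ hx)⟩ = conj (ψ ⟨x⁻¹, _⟩)
      rw [e1, e2, map_inv₀, map_inv₀, map_inv₀, h1]
    | mul x y hx hy h1 h2 =>
      have e1 : (⟨conj (x * y), conj_mem (Subfield.mul_mem _ hx hy)⟩ : Kab) =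
        ⟨conj x, conj_mem hx⟩ * ⟨conj y, conj_mem hy⟩ := Subtype.ext (map_mul _ _ _)
      have e2 : (⟨x * y, Subfield.mul_mem _ hx hy⟩ : Kab) = ⟨x, hx⟩ * ⟨y, hy⟩ := rfl
      show ψ ⟨conj (x * y), conj_mem (Subfield.mul_mem _ hx hy)⟩ = conj (ψ ⟨x * y, _⟩)
      rw [e1, e2, map_mul, map_mul, map_mul, h1, h2]
  exact key x hx

theorem isIntegral_conj {x : ℂ} (hx : IsIntegral ℤ x) : IsIntegral ℤ (conj x) :=
  map_isIntegral_int (starRingEnd ℂ) hx

/-- The quotient of the conjugate of a unit by the unit is a root of unity. -/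
theorem conj_div {v : ℂ} (hv : v ∈ Kab) (h0 : v ≠ 0) (hi : IsIntegral ℤ v)
    (hi' : IsIntegral ℤ v⁻¹) : ∃ n, 0 < n ∧ (conj v / v) ^ n = 1 := by
  have hmem : conj v / v ∈ Kab := Subfield.div_mem _ (conj_mem hv) hv
  apply kron
  · exact div_ne_zero ((_root_.map_ne_zero _).mpr h0) h0
  · rw [div_eq_mul_inv]
    exact (isIntegral_conj hi).mul hi'
  · intro w hw
    obtain ⟨ψ, hψ⟩ := exists_hom hmem hw
    have e : (⟨conj v / v, hmem⟩ : Kab) = ⟨conj v, conj_mem hv⟩ / ⟨v, hv⟩ := rfl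
    rw [← hψ, e, map_div₀, hom_conj ψ hv, norm_div, Complex.norm_conj, div_self]
    rw [norm_ne_zero_iff]
    intro h
    rw [map_eq_zero] at h
    exact h0 (congrArg Subtype.val h)

/-- A root of unity congruent to `1` modulo an integer `m ≥ 3` is `1`. -/
theorem eq_one_of_modEq {η T : ℂ} {n m : ℕ} (hn : 0 < n) (h : η ^ n = 1) (hm : 3 ≤ m)
    (hT : IsIntegral ℤ T) (e : η - 1 = m * T) : η = 1 := by
  by_contra hη
  have hT0 : T ≠ 0 := by
    rintro rfl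
    apply hη
    rw [mul_zero] at e
    exact sub_eq_zero.mp e
  have hm' : (3 : ℝ) ≤ m := by exact_mod_cast hm
  have bound : ∀ w : ℂ, ((m : ℂ) * w + 1) ^ n = 1 → ‖w‖ ≤ 2 / 3 := by
    intro w hw
    have h1 := norm_of_pow_eq_one hn hw
    have h2 : ‖(m : ℂ) * w‖ ≤ 2 := by
      calc ‖(m : ℂ) * w‖ = ‖((m : ℂ) * w + 1) - 1‖ := by ring_nf
        _ ≤ ‖(m : ℂ) * w + 1‖ + ‖(1 : ℂ)‖ := norm_sub_le _ _
        _ = 2 := by rw [h1, norm_one]; norm_num
    rw [norm_mul, Complex.norm_natCast] at h2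
    nlinarith [norm_nonneg w]
  have hTe : ((m : ℂ) * T + 1) ^ n = 1 := by
    rw [← e]
    ring_nf
    exact h
  obtain ⟨k, hk, hk'⟩ := kron hT0 hT (by
    intro w hw
    have hd : minpoly ℚ T ∣ (C (m : ℚ) * X + 1) ^ n - 1 := by
      apply minpoly.dvd
      simp [hTe]
    have h3 := aeval_eq_zero_of_dvd_aeval_eq_zero hd hw
    simp at h3
    have h4 := bound w (by linear_combination h3)
    linarith)
  have h5 := norm_of_pow_eq_one hk hk'
  have h6 := bound T hTe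
  rw [h5] at h6
  norm_num at h6

end Pool.Agent.Zab
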