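import Pool.Agent.Lib_helper93.RingDef.Basic
import Pool.Agent.Lib_helper93.Zab.Integers

set_option autoImplicit false
set_option linter.unusedSectionVars false
set_option linter.unusedVariables false

/-!
# The natural numbers are definable in the ring of integers of `ℚ^ab`
-/

namespace Pool.Agent.Zab

open FirstOrder FirstOrder.Ring FirstOrder.Language Pool.Agent.RingDef

section General

variable {R : Type} [CommRing R] [CompatibleRing R] {α : Type}

theorem _root_.Pool.Agent.RingDef.ET.lift {t : (α → R) → R} (ht : ET t) :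
    ET (fun v : Option α → R => t (fun i => v (some i))) := ht.relabel some

theorem E_AA {c z u : (α → R) → R} (hc : ET c) (hz : ET z) (hu : ET u) :
    E (fun v => AA (c v) (z v) (u v)) := by
  unfold AA
  refine E.and (E.ex ?_) (E.and (E.ex ?_) (E.and (E.ex ?_) (E.ex ?_)))
  · exact E.eq (hu.lift.mul (ET.var none)) ET.one
  · exact E.eq ((hu.lift.add hc.lift.neg).mul (ET.var none)) ET.one
  · exact E.eq ((hu.lift.add (hc.lift.mul hc.lift).neg).mul (ET.var none)) ET.one
  · exact E.eq (hu.lift.add ET.one.neg) ((hz.lift.add ET.one.neg).mul (ET.var none))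

theorem E_PP {c z : (α → R) → R} (hc : ET c) (hz : ET z) : E (fun v => PP (c v) (z v)) := by
  unfold PP
  refine E.ex (E.and (E.eq (hz.lift.mul (ET.var none)) ET.one) (E.all ?_))
  refine (E_AA hc.lift.lift hz.lift.lift (ET.var none)).imp (E.and ?_ ?_)
  · exact E_AA hc.lift.lift hz.lift.lift ((ET.var none).mul hz.lift.lift)
  · exact E_AA hc.lift.lift hz.lift.lift ((ET.var none).mul (ET.var (some none)))

theorem E_ZZ {x : (α → R) → R} (hx : ET x) : E (fun v => ZZ (x v)) := by
  unfold ZZ
  refine E.all (E.imp ?_ (E.all (E.imp ?_ (E.ex (E.and ?_ (E.ex ?_))))))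
  · exact E.eq (((((ET.var none).mul (ET.var none)).mul ((ET.var none).mul (ET.var none))).add
      ((ET.var none).mul (ET.var none)).neg).add ET.one) ET.zero
  · exact E_PP (ET.var (some none)) (ET.var none)
  · exact E_AA (ET.var (some (some none))) (ET.var (some none)) (ET.var none)
  · have z1 : ET (fun v : Option (Option (Option (Option α))) → R => v (some (some none))) :=
      ET.var _
    have y1 : ET (fun v : Option (Option (Option (Option α))) → R => v (some none)) := ET.var _
    have zm := z1.add (ET.one (R := R)).neg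
    exact E.eq ((hx.lift.lift.lift.lift.mul zm).add (y1.add ET.one.neg).neg)
      ((zm.mul zm).mul (ET.var none))

end General

noncomputable instance : CompatibleRing OO := compatibleRingOfRing OO

instance : CharZero OO := inferInstance

theorem natDef_OO : NatDef OO := by
  unfold NatDef
  have h : E (fun v : Unit → OO => ∃ a b c d : OO, ZZ a ∧ ZZ b ∧ ZZ c ∧ ZZ d ∧
      v () = a * a + b * b + c * c + d * d) := by
    refine E.ex (E.ex (E.ex (E.ex (E.and ?_ (E.and ?_ (E.and ?_ (E.and ?_ ?_)))))))
    · exact E_ZZ (ET.var (some (some (some none))))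
    · exact E_ZZ (ET.var (some (some none)))
    · exact E_ZZ (ET.var (some none))
    · exact E_ZZ (ET.var none)
    · exact E.eq (ET.var (some (some (some (some ())))))
        (((((ET.var (some (some (some none)))).mul (ET.var (some (some (some none))))).add
        ((ET.var (some (some none))).mul (ET.var (some (some none))))).add
        ((ET.var (some none)).mul (ET.var (some none)))).add
        ((ET.var none).mul (ET.var none)))
  refine h.congr fun v => ?_
  constructor
  · rintro ⟨a, b, c, d, ha, hb, hc, hd, e⟩
    obtain ⟨a, rfl⟩ := (ZZ_iff _).mp ha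
    obtain ⟨b, rfl⟩ := (ZZ_iff _).mp hb
    obtain ⟨c, rfl⟩ := (ZZ_iff _).mp hc
    obtain ⟨d, rfl⟩ := (ZZ_iff _).mp hd
    have h0 : 0 ≤ a * a + b * b + c * c + d * d := by
      have h1 := mul_self_nonneg a
      have h2 := mul_self_nonneg b
      have h3 := mul_self_nonneg c
      have h4 := mul_self_nonneg d
      omega
    obtain ⟨n, hn⟩ := Int.eq_ofNat_of_zero_le h0
    refine ⟨n, ?_⟩
    rw [e]
    have := congrArg (fun z : ℤ => (z : OO)) hn
    push_cast at this
    exact this
  · rintro ⟨n, e⟩
    obtain ⟨a, b, c, d, hn⟩ := Nat.sum_four_squares n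
    refine ⟨(a : ℤ), (b : ℤ), (c : ℤ), (d : ℤ), ZZ_intCast _, ZZ_intCast _, ZZ_intCast _,
      ZZ_intCast _, ?_⟩
    rw [e, ← hn]
    push_cast
    ring

end Pool.Agent.Zab
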