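import Pool.Agent.Lib_helper93.Zab.Kronecker

set_option autoImplicit false

namespace Pool.Agent.Zab

open Polynomial ComplexConjugate

/-- The ring of all algebraic integers in `ℂ`. -/
abbrev Zb : Type := integralClosure ℤ ℂ

/-- The radical of the ideal generated by `p` in the ring of all algebraic integers. -/
def J (p : ℕ) : Set ℂ :=
  {z | ∃ h : z ∈ integralClosure ℤ ℂ, (⟨z, h⟩ : Zb) ∈ (Ideal.span {(p : Zb)}).radical}

theorem mem_J_iff {p : ℕ} {z : ℂ} : z ∈ J p ↔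
    IsIntegral ℤ z ∧ ∃ N : ℕ, ∃ w : ℂ, IsIntegral ℤ w ∧ z ^ N = p * w := by
  constructor
  · rintro ⟨h, N, hN⟩
    rw [Ideal.mem_span_singleton] at hN
    obtain ⟨w, hw⟩ := hN
    exact ⟨h, N, w, w.2, congrArg Subtype.val hw⟩
  · rintro ⟨h, N, w, hw, e⟩
    refine ⟨h, N, ?_⟩
    rw [Ideal.mem_span_singleton]
    exact ⟨⟨w, hw⟩, Subtype.ext e⟩

theorem J_add {p : ℕ} {x y : ℂ} (hx : x ∈ J p) (hy : y ∈ J p) : x + y ∈ J p := by
  obtain ⟨h1, h2⟩ := hx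
  obtain ⟨h3, h4⟩ := hy
  exact ⟨Subalgebra.add_mem _ h1 h3, Ideal.add_mem _ h2 h4⟩

theorem J_neg {p : ℕ} {x : ℂ} (hx : x ∈ J p) : -x ∈ J p := by
  obtain ⟨h1, h2⟩ := hx
  exact ⟨Subalgebra.neg_mem _ h1, (Ideal.neg_mem_iff _).mpr h2⟩

theorem J_sub {p : ℕ} {x y : ℂ} (hx : x ∈ J p) (hy : y ∈ J p) : x - y ∈ J p := by
  rw [sub_eq_add_neg]
  exact J_add hx (J_neg hy)

theorem J_mul {p : ℕ} {x y : ℂ} (hx : x ∈ J p) (hy : IsIntegral ℤ y) : x * y ∈ J p := by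
  obtain ⟨h1, h2⟩ := hx
  exact ⟨Subalgebra.mul_mem _ h1 hy, Ideal.mul_mem_right (⟨y, hy⟩ : Zb) _ h2⟩

theorem J_int {p : ℕ} (hp : p.Prime) {k : ℤ} (h : (k : ℂ) ∈ J p) : (p : ℤ) ∣ k := by
  rw [mem_J_iff] at h
  obtain ⟨-, N, w, hw, e⟩ := h
  have hp0 : (p : ℂ) ≠ 0 := by exact_mod_cast hp.ne_zero
  have h1 : w = algebraMap ℚ ℂ ((k : ℚ) ^ N / p) := by
    field_simp
    push_cast [map_div₀, map_pow, map_intCast, map_natCast]
    rw [e]
    field_simp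
  rw [h1] at hw
  have h2 : IsIntegral ℤ ((k : ℚ) ^ N / p) :=
    (isIntegral_algebraMap_iff (algebraMap ℚ ℂ).injective).mp hw
  obtain ⟨m, hm⟩ := IsIntegrallyClosed.isIntegral_iff.mp h2
  have hp0' : (p : ℚ) ≠ 0 := by exact_mod_cast hp.ne_zero
  have h3 : (k : ℚ) ^ N = p * m := by
    rw [eq_div_iff hp0'] at hm
    rw [← hm]
    simp
    ring
  have h4 : k ^ N = p * m := by exact_mod_cast h3
  exact Int.Prime.dvd_pow' hp (Dvd.intro _ h4.symm)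

theorem J_hom {p : ℕ} (ψ : Kab →+* ℂ) {z : ℂ} (hz : z ∈ Kab) (h : z ∈ J p) (hp : p ≠ 0) :
    ψ ⟨z, hz⟩ ∈ J p := by
  rw [mem_J_iff] at h ⊢
  obtain ⟨h1, N, w, hw, e⟩ := h
  have hp0 : (p : ℂ) ≠ 0 := by exact_mod_cast hp
  have hw' : w ∈ Kab := by
    have : w = z ^ N / p := by
      rw [e]
      field_simp
    rw [this]
    exact Subfield.div_mem _ (Subfield.pow_mem _ hz _) (natCast_mem Kab p)
  have hi : ∀ x : Kab, IsIntegral ℤ (x : ℂ) → IsIntegral ℤ (ψ x) := by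
    intro x hx
    have : IsIntegral ℤ x := (isIntegral_algebraMap_iff (algebraMap Kab ℂ).injective).mp hx
    exact map_isIntegral_int ψ this
  refine ⟨hi ⟨z, hz⟩ h1, N, ψ ⟨w, hw'⟩, hi ⟨w, hw'⟩ hw, ?_⟩
  rw [← map_pow]
  have e2 : (⟨z, hz⟩ : Kab) ^ N = (p : Kab) * ⟨w, hw'⟩ := Subtype.ext e
  rw [e2, map_mul, map_natCast]

/-- An algebraic integer that lies in infinitely many of the ideals `J p` is zero. -/
theorem eq_zero_of_J {z : ℂ} (hz : IsIntegral ℤ z)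
    (h : ∀ N : ℕ, ∃ p, p.Prime ∧ N < p ∧ z ∈ J p) : z = 0 := by
  by_contra hz0
  set f := minpoly ℤ z with hf
  have hf0 : f.coeff 0 ≠ 0 := by
    intro h0
    have hX : X ∣ f := X_dvd_iff.mpr h0
    obtain ⟨g, hg⟩ := hX
    have h1 : aeval z f = 0 := minpoly.aeval ℤ z
    rw [hg, map_mul, aeval_X] at h1
    have h2 : aeval z g = 0 := (mul_eq_zero.mp h1).resolve_left hz0
    have hgm : g.Monic := by
      have : (X * g).Monic := hg ▸ minpoly.monic hz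
      exact Monic.of_mul_monic_left monic_X this
    have h3 := minpoly.min ℤ z hgm h2
    have h7 := natDegree_le_natDegree h3
    rw [← hf, hg, natDegree_X_mul hgm.ne_zero] at h7
    omega
  have hdvd : ∃ y, IsIntegral ℤ y ∧ ((f.coeff 0 : ℤ) : ℂ) = z * y := by
    refine ⟨-aeval z f.divX, ?_, ?_⟩
    · apply IsIntegral.neg
      have h1 : aeval z f.divX ∈ Algebra.adjoin ℤ {z} := aeval_mem_adjoin_singleton ℤ z
      have h2 : Algebra.adjoin ℤ {z} ≤ integralClosure ℤ ℂ :=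
        Algebra.adjoin_le (Set.singleton_subset_iff.mpr hz)
      exact h2 h1
    · have h1 : aeval z f = 0 := minpoly.aeval ℤ z
      rw [← divX_mul_X_add f] at h1
      simp at h1
      linear_combination h1
  obtain ⟨y, hy, e⟩ := hdvd
  obtain ⟨p, hp, hlt, hJ⟩ := h (f.coeff 0).natAbs
  have h1 : ((f.coeff 0 : ℤ) : ℂ) ∈ J p := by
    rw [e]
    exact J_mul hJ hy
  have h2 := J_int hp h1
  have h3 := Int.natAbs_dvd_natAbs.mpr h2
  rw [Int.natAbs_natCast] at h3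
  have h4 := Nat.le_of_dvd (Int.natAbs_pos.mpr hf0) h3
  omega

end Pool.Agent.Zab
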