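import Pool.Agent.Lib_helper93.Zab.Radical

set_option autoImplicit false

namespace Pool.Agent.Zab

open Polynomial ComplexConjugate

theorem three_zmod : (3 : ZMod 3) = 0 := by decide

theorem not_sq_two : ¬ IsSquare (2 : ZMod 3) := by decide

theorem Zb_natCast (p : ℕ) : ((p : Zb) : ℂ) = (p : ℂ) := map_natCast (algebraMap Zb ℂ) p

theorem nonres {p : ℕ} (hp : p.Prime) (h12 : p % 12 = 5) {a b : ℤ}
    (h : (p : ℤ) ∣ 3 * a ^ 2 - b ^ 2) : (p : ℤ) ∣ a ∧ (p : ℤ) ∣ b := by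
  have : Fact p.Prime := ⟨hp⟩
  have : Fact (Nat.Prime 3) := ⟨Nat.prime_three⟩
  have h1 : (3 : ZMod p) * (a : ZMod p) ^ 2 = (b : ZMod p) ^ 2 := by
    have := (ZMod.intCast_zmod_eq_zero_iff_dvd (3 * a ^ 2 - b ^ 2) p).mpr h
    push_cast at this
    linear_combination this
  have ha : (a : ZMod p) = 0 := by
    by_contra ha
    have h2 : IsSquare ((3 : ℕ) : ZMod p) := by
      refine ⟨(b : ZMod p) / a, ?_⟩
      push_cast
      field_simp
      linear_combination h1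
    rw [ZMod.exists_sq_eq_prime_iff_of_mod_four_eq_one (by omega) (by decide)] at h2
    have h3 : ((p : ℕ) : ZMod 3) = 2 := by
      have : p = 3 * (p / 3) + 2 := by omega
      rw [this]
      push_cast
      rw [three_zmod]
      ring
    rw [h3] at h2
    exact not_sq_two h2
  have hb : (b : ZMod p) = 0 := by
    rw [ha] at h1
    have : (b : ZMod p) ^ 2 = 0 := by linear_combination -h1
    exact pow_eq_zero_iff (two_ne_zero) |>.mp this
  exact ⟨(ZMod.intCast_zmod_eq_zero_iff_dvd a p).mp ha,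
    (ZMod.intCast_zmod_eq_zero_iff_dvd b p).mp hb⟩

theorem zeta_sub_pow {p : ℕ} (hp : p.Prime) (hp2 : p ≠ 2) {ζ : ℂ} (h : ζ ^ p = 1) :
    ∃ S, IsIntegral ℤ S ∧ (ζ - 1) ^ p = p * S := by
  have hi := isIntegral_of_pow_eq_one hp.pos h
  let Z : Zb := ⟨ζ, hi⟩
  obtain ⟨r, hr⟩ := exists_add_pow_prime_eq hp Z (-1)
  have hZ : Z ^ p = 1 := Subtype.ext h
  have hodd : Odd p := hp.odd_of_ne_two hp2
  rw [hZ, hodd.neg_one_pow] at hr
  refine ⟨(Z * (-1) * r : Zb), (Z * (-1) * r : Zb).2, ?_⟩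
  have h2 := congrArg Subtype.val hr
  simp only [Subalgebra.coe_mul, Subalgebra.coe_add, Subalgebra.coe_pow, Subalgebra.coe_neg,
    Subalgebra.coe_one, Zb_natCast] at h2 ⊢
  have h3 : (Z : ℂ) = ζ := rfl
  rw [h3] at h2 ⊢
  rw [sub_eq_add_neg, h2]
  ring

theorem zeta_mem_J {p : ℕ} (hp : p.Prime) (hp2 : p ≠ 2) {ζ : ℂ} (h : ζ ^ p = 1) :
    ζ - 1 ∈ J p := by
  rw [mem_J_iff]
  obtain ⟨S, hS, e⟩ := zeta_sub_pow hp hp2 h
  exact ⟨(isIntegral_of_pow_eq_one hp.pos h).sub isIntegral_one, p, S, hS, e⟩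

theorem root_pow {p : ℕ} (hp : p.Prime) (hp3 : 3 ≤ p) {ζ β w : ℂ} {n : ℕ} (hn : 0 < n)
    (hβ : β ^ n = 1) (hζ : ζ ^ p = 1) (hw : IsIntegral ℤ w) (e : β - 1 = (ζ - 1) * w) :
    β ^ p = 1 := by
  obtain ⟨S, hS, hS'⟩ := zeta_sub_pow hp (by omega) hζ
  have hi := isIntegral_of_pow_eq_one hp.pos hζ
  let Y : Zb := ⟨(ζ - 1) * w, (hi.sub isIntegral_one).mul hw⟩
  obtain ⟨r, hr⟩ := exists_add_pow_prime_eq hp (1 : Zb) Y
  have h2 := congrArg Subtype.val hr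
  simp only [Subalgebra.coe_mul, Subalgebra.coe_add, Subalgebra.coe_pow,
    Subalgebra.coe_one, Zb_natCast] at h2
  have h3 : (Y : ℂ) = (ζ - 1) * w := rfl
  rw [h3, mul_pow, hS', one_pow] at h2
  have h4 : β = 1 + (ζ - 1) * w := by linear_combination e
  rw [← h4] at h2
  apply eq_one_of_modEq (n := n) hn (T := S * w ^ p + (ζ - 1) * w * r) _ hp3
  · exact (hS.mul (hw.pow p)).add (((hi.sub isIntegral_one).mul hw).mul r.2)
  · rw [h2]
    ring
  · rw [← pow_mul, mul_comm, pow_mul, hβ, one_pow]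

theorem aux_g {p : ℕ} (hp : p.Prime) (hp3 : 3 ≤ p) {ζ u d w v : ℂ} (hζ : ζ ^ p = 1)
    (hud : u - d ∈ Kab) (hd : d ^ 12 = 1) (hiu : IsIntegral ℤ u)
    (hiw : IsIntegral ℤ w) (hiv : IsIntegral ℤ v) (h1 : (u - d) * v = 1)
    (hw : u - 1 = (ζ - 1) * w) : ∃ g : ℂ, g ^ p = 1 ∧ d * conj u + g * u = 1 + d * g := by
  have hid := isIntegral_of_pow_eq_one (by norm_num) hd
  have hiζ := isIntegral_of_pow_eq_one hp.pos hζ
  have hζ0 : ζ ≠ 0 := by
    rintro rfl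
    rw [zero_pow hp.ne_zero] at hζ
    exact zero_ne_one hζ
  have hd0 : d ≠ 0 := by
    rintro rfl
    norm_num at hd
  have hud0 : u - d ≠ 0 := left_ne_zero_of_mul_eq_one h1
  have hv : v = (u - d)⁻¹ := eq_inv_of_mul_eq_one_right h1
  have hcζ : conj ζ = ζ⁻¹ := conj_of_pow_eq_one hp.pos hζ
  have hcd : conj d = d⁻¹ := conj_of_pow_eq_one (by norm_num) hd
  have hiζ' : IsIntegral ℤ ζ⁻¹ := by
    rw [← hcζ]
    exact isIntegral_conj hiζ
  obtain ⟨m, hm, hm'⟩ := conj_div hud hud0 (hiu.sub hid) (by rw [← hv]; exact hiv)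
  have hcu : conj u - 1 = (ζ⁻¹ - 1) * conj w := by
    have := congrArg conj hw
    simpa [hcζ] using this
  refine ⟨-d * (conj (u - d) / (u - d)), ?_, ?_⟩
  · apply root_pow hp hp3 (n := 12 * m) (by omega) (w := -(d * (-ζ⁻¹ * conj w) + w) * v) _ hζ
    · exact ((hid.mul ((hiζ'.neg).mul (isIntegral_conj hiw))).add hiw).neg.mul hiv
    · rw [hv, map_sub, hcd]
      field_simp
      have e1 : d * conj u - 1 + (u - d) = d * (conj u - 1) + (u - 1) := by ring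
      have e2 : -(d * (conj u - d⁻¹)) - (u - d) = -(d * conj u - 1 + (u - d)) := by
        field_simp
        ring
      have e3 : (ζ - 1) * (-(d * (-ζ⁻¹ * conj w) + w)) = -(d * (conj u - 1) + (u - 1)) := by
        rw [hcu, hw]
        field_simp
        ring
      have e4 : -(d * conj u - 1) - (u - d) = -(d * (conj u - 1) + (u - 1)) := by ring
      rw [hcu, hw] at e4
      field_simp at e4 ⊢
      linear_combination e4
    · rw [mul_pow, pow_mul (-d), neg_pow, hd, mul_comm 12 m, pow_mul _ m, hm']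
      norm_num
  · rw [map_sub, hcd]
    field_simp
    ring


theorem pow_expand {ζ : ℂ} (hi : IsIntegral ℤ ζ) (k : ℕ) :
    ∃ F : ℂ, IsIntegral ℤ F ∧ ζ ^ k = 1 + (ζ - 1) * (k + (ζ - 1) * F) := by
  induction k with
  | zero => exact ⟨0, isIntegral_zero, by simp⟩
  | succ k ih =>
    obtain ⟨F, hF, e⟩ := ih
    have hk : IsIntegral ℤ (k : ℂ) := by
      simpa using isIntegral_algebraMap (R := ℤ) (A := ℂ) (x := (k : ℤ))
    refine ⟨F + k + (ζ - 1) * F, (hF.add hk).add ((hi.sub isIntegral_one).mul hF), ?_⟩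
    rw [pow_succ, e]
    push_cast
    ring

theorem pow_eq_of_dvd_aux {p : ℕ} {ζ : ℂ} (hζ : ζ ^ p = 1) {a b : ℕ} (hab : a ≤ b)
    (h : (p : ℤ) ∣ (a : ℤ) - b) : ζ ^ a = ζ ^ b := by
  have h1 : p ∣ b - a := by
    have h2 : (p : ℤ) ∣ ((b - a : ℕ) : ℤ) := by
      rw [Nat.cast_sub hab, ← neg_sub, dvd_neg]
      exact h
    exact_mod_cast h2
  obtain ⟨k, hk⟩ := h1
  have h3 : b = a + p * k := by omega
  rw [h3, pow_add, pow_mul, hζ, one_pow, mul_one]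

theorem pow_eq_of_dvd {p : ℕ} {ζ : ℂ} (hζ : ζ ^ p = 1) {a b : ℕ}
    (h : (p : ℤ) ∣ (a : ℤ) - b) : ζ ^ a = ζ ^ b := by
  rcases le_total a b with hab | hab
  · exact pow_eq_of_dvd_aux hζ hab h
  · exact (pow_eq_of_dvd_aux hζ hab (by rw [← neg_sub, dvd_neg]; exact h)).symm

/-- The structure lemma. -/
theorem pow_eq_one_of_units {p : ℕ} (hp : p.Prime) (h12 : p % 12 = 5) {ζ c u u' v₁ v₂ w : ℂ}
    (hζ : ζ ^ p = 1) (hζ1 : ζ ≠ 1) (hc : c ^ 4 - c ^ 2 + 1 = 0) (hcK : c ∈ Kab) (huK : u ∈ Kab)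
    (hu : IsIntegral ℤ u) (hu' : IsIntegral ℤ u') (hv₁ : IsIntegral ℤ v₁)
    (hv₂ : IsIntegral ℤ v₂) (hw : IsIntegral ℤ w) (e : u * u' = 1) (e₁ : (u - c) * v₁ = 1)
    (e₂ : (u - c * c) * v₂ = 1) (ew : u - 1 = (ζ - 1) * w) : u ^ p = 1 := by
  have hp3 : 3 ≤ p := by
    have : p % 12 ≤ p := Nat.mod_le _ _
    omega
  have hc6 : c ^ 6 = -1 := by linear_combination (c ^ 2 + 1) * hc
  have hc12 : c ^ 12 = 1 := by
    have : c ^ 12 = (c ^ 6) ^ 2 := by ring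
    rw [this, hc6]
    norm_num
  have hcc12 : (c * c) ^ 12 = 1 := by
    have : (c * c) ^ 12 = (c ^ 12) ^ 2 := by ring
    rw [this, hc12]
    norm_num
  have hic := isIntegral_of_pow_eq_one (by norm_num) hc12
  have hiζ := isIntegral_of_pow_eq_one hp.pos hζ
  have hζ0 : ζ ≠ 0 := by
    rintro rfl
    rw [zero_pow hp.ne_zero] at hζ
    exact zero_ne_one hζ
  have hu0 : u ≠ 0 := left_ne_zero_of_mul_eq_one e
  have hu'' : u' = u⁻¹ := eq_inv_of_mul_eq_one_right e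
  have hcζ : conj ζ = ζ⁻¹ := conj_of_pow_eq_one hp.pos hζ
  have hiζ' : IsIntegral ℤ ζ⁻¹ := by
    rw [← hcζ]
    exact isIntegral_conj hiζ
  have hcu : conj u - 1 = (ζ⁻¹ - 1) * conj w := by
    have := congrArg conj ew
    simpa [hcζ] using this
  obtain ⟨n, hn, hβn⟩ := conj_div huK hu0 hu (by rw [← hu'']; exact hu')
  obtain ⟨β, hβ⟩ : ∃ β, β = conj u / u := ⟨_, rfl⟩
  rw [← hβ] at hβn
  have hβu : conj u = β * u := by
    rw [hβ]
    field_simp
  have hβp : β ^ p = 1 := by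
    apply root_pow hp hp3 hn hβn hζ (w := (-ζ⁻¹ * conj w - w) * u')
    · exact ((hiζ'.neg.mul (isIntegral_conj hw)).sub hw).mul hu'
    · have h1 : (ζ - 1) * (-ζ⁻¹ * conj w - w) = conj u - u := by
        have : conj u - u = (conj u - 1) - (u - 1) := by ring
        rw [this, hcu, ew]
        field_simp
        ring
      rw [← mul_assoc, h1, hβ, hu'']
      field_simp
  obtain ⟨g₁, hg₁, r₁⟩ := aux_g hp hp3 hζ (Subfield.sub_mem _ huK hcK) hc12 hu hw hv₁ e₁ ew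
  obtain ⟨g₂, hg₂, r₂⟩ := aux_g hp hp3 hζ (Subfield.sub_mem _ huK (Subfield.mul_mem _ hcK hcK))
    hcc12 hu hw hv₂ e₂ ew
  rw [hβu] at r₁ r₂
  have : Fact p.Prime := ⟨hp⟩
  have hprim : IsPrimitiveRoot ζ p := by
    have ho : orderOf ζ = p := orderOf_eq_prime hζ hζ1
    rw [← ho]
    exact IsPrimitiveRoot.orderOf ζ
  have hpos : NeZero p := ⟨hp.ne_zero⟩
  obtain ⟨b, -, hb⟩ := hprim.eq_pow_of_pow_eq_one hβp
  obtain ⟨a₁, -, ha₁⟩ := hprim.eq_pow_of_pow_eq_one hg₁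
  obtain ⟨a₂, -, ha₂⟩ := hprim.eq_pow_of_pow_eq_one hg₂
  have rel : (c ^ 2 - c) * (β - g₁ * g₂) + (g₂ - g₁) * (1 - c ^ 3 * β) = 0 := by
    have h1 : (c * β + g₁) * u = 1 + c * g₁ := by linear_combination r₁
    have h2 : (c ^ 2 * β + g₂) * u = 1 + c ^ 2 * g₂ := by linear_combination r₂
    have h3 : (1 + c * g₁) * (c ^ 2 * β + g₂) = (1 + c ^ 2 * g₂) * (c * β + g₁) := by
      rw [← h1, ← h2]
      ring
    linear_combination h3
  obtain ⟨Fb, hFb, eb⟩ := pow_expand hiζ b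
  obtain ⟨F₁, hF₁, ea₁⟩ := pow_expand hiζ a₁
  obtain ⟨F₂, hF₂, ea₂⟩ := pow_expand hiζ a₂
  obtain ⟨F₃, hF₃, ea₃⟩ := pow_expand hiζ (a₁ + a₂)
  have hg₁₂ : g₁ * g₂ = ζ ^ (a₁ + a₂) := by rw [pow_add, ha₁, ha₂]
  have hz1 : ζ - 1 ≠ 0 := sub_ne_zero.mpr hζ1
  set s : ℤ := (b : ℤ) - a₁ - a₂ with hs
  set t : ℤ := (a₂ : ℤ) - a₁ with ht
  have hint : ∀ k : ℤ, IsIntegral ℤ (k : ℂ) := fun k => by
    simpa using isIntegral_algebraMap (R := ℤ) (A := ℂ) (x := k)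
  have hnat : ∀ k : ℕ, IsIntegral ℤ (k : ℂ) := fun k => by
    simpa using isIntegral_algebraMap (R := ℤ) (A := ℂ) (x := (k : ℤ))
  have rel2 : (c ^ 2 - c) * s + (1 - c ^ 3) * t =
      (ζ - 1) * (-((c ^ 2 - c) * (Fb - F₃) + (F₂ - F₁) * (1 - c ^ 3 * β)
        - t * c ^ 3 * (b + (ζ - 1) * Fb))) := by
    have h1 : β - g₁ * g₂ = (ζ - 1) * (s + (ζ - 1) * (Fb - F₃)) := by
      rw [← hb, hg₁₂, eb, ea₃, hs]
      push_cast
      ring
    have h2 : g₂ - g₁ = (ζ - 1) * (t + (ζ - 1) * (F₂ - F₁)) := by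
      rw [← ha₁, ← ha₂, ea₁, ea₂, ht]
      push_cast
      ring
    have h3 : β = 1 + (ζ - 1) * (b + (ζ - 1) * Fb) := by rw [← hb, eb]
    rw [h1, h2] at rel
    have h4 : (c ^ 2 - c) * (s + (ζ - 1) * (Fb - F₃)) +
        (t + (ζ - 1) * (F₂ - F₁)) * (1 - c ^ 3 * β) = 0 := by
      apply mul_left_cancel₀ hz1
      linear_combination rel
    linear_combination h4 + t * c ^ 3 * h3
  have hJ : (c ^ 2 - c) * s + (1 - c ^ 3) * t ∈ J p := by
    rw [rel2]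
    apply J_mul (zeta_mem_J hp (by omega) hζ)
    have hiβ : IsIntegral ℤ β := isIntegral_of_pow_eq_one hn hβn
    exact ((((((hic.pow 2).sub hic).mul (hFb.sub hF₃)).add
      ((hF₂.sub hF₁).mul (isIntegral_one.sub ((hic.pow 3).mul hiβ)))).sub
      (((hint t).mul (hic.pow 3)).mul
        ((hnat b).add ((hiζ.sub isIntegral_one).mul hFb)))).neg)
  have hJ2 : (2 * c - c ^ 3) * t + (t - s) ∈ J p := by
    have e3 : (2 * c - c ^ 3) * t + (t - s) =
        ((c ^ 2 - c) * s + (1 - c ^ 3) * t) * (c ^ 2 * (1 + c) * (c - c ^ 3)) := by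
      have k1 : (c ^ 2 - c) * (c ^ 2 * (1 + c) * (c - c ^ 3)) = -1 := by
        have : (c ^ 2 - c) * (c ^ 2 * (1 + c) * (c - c ^ 3)) + 1 =
          (c ^ 4 - c ^ 2 + 1) * (1 + c ^ 2 - c ^ 4) := by ring
        rw [hc, zero_mul] at this
        linear_combination this
      have k2 : (1 - c ^ 3) * (c ^ 2 * (1 + c) * (c - c ^ 3)) = 2 * c - c ^ 3 + 1 := by
        have hc4 : c ^ 4 = c ^ 2 - 1 := by linear_combination hc
        have hc5 : c ^ 5 = c ^ 3 - c := by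
          have : c ^ 5 = c * c ^ 4 := by ring
          rw [this, hc4]
          ring
        have : (1 - c ^ 3) * (c ^ 2 * (1 + c) * (c - c ^ 3)) =
          c ^ 3 + c ^ 4 - c ^ 5 - 2 * c ^ 6 - c ^ 6 * c + c ^ 6 * c ^ 2 + c ^ 6 * c ^ 3 := by ring
        rw [this, hc6, hc5, hc4]
        ring
      linear_combination (-(s : ℂ)) * k1 - (t : ℂ) * k2
    rw [e3]
    apply J_mul hJ
    exact ((hic.pow 2).mul (isIntegral_one.add hic)).mul (hic.sub (hic.pow 3))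
  have hr2 : (2 * c - c ^ 3) ^ 2 = 3 := by
    have : (2 * c - c ^ 3) ^ 2 = 4 * c ^ 2 - 4 * c ^ 4 + c ^ 6 := by ring
    rw [this, hc6]
    linear_combination (-4) * hc
  have hJ3 : ((3 * t ^ 2 - (t - s) ^ 2 : ℤ) : ℂ) ∈ J p := by
    have e4 : ((3 * t ^ 2 - (t - s) ^ 2 : ℤ) : ℂ) =
        ((2 * c - c ^ 3) * t + (t - s)) * ((2 * c - c ^ 3) * t - (t - s)) := by
      push_cast
      linear_combination (-(t : ℂ) ^ 2) * hr2
    rw [e4]
    apply J_mul hJ2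
    have hi2 : IsIntegral ℤ (2 * c - c ^ 3) := by
      have : IsIntegral ℤ (2 : ℂ) := by exact_mod_cast hnat 2
      exact (this.mul hic).sub (hic.pow 3)
    exact (hi2.mul (hint t)).sub ((hint t).sub (hint s))
  obtain ⟨d1, d2⟩ := nonres hp h12 (J_int hp hJ3)
  have d3 : (p : ℤ) ∣ (b : ℤ) - ((a₁ + a₂ : ℕ) : ℤ) := by
    have : (b : ℤ) - ((a₁ + a₂ : ℕ) : ℤ) = t - (t - s) := by
      rw [hs]
      push_cast
      ring
    rw [this]
    exact dvd_sub d1 d2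
  have f1 : g₂ = g₁ := by
    rw [← ha₁, ← ha₂]
    exact pow_eq_of_dvd hζ d1
  have f2 : β = g₁ * g₂ := by
    rw [hg₁₂, ← hb]
    exact pow_eq_of_dvd hζ d3
  rw [f1] at f2
  have h1c : 1 + c * g₁ ≠ 0 := by
    intro h
    have hcg : c * g₁ = -1 := by linear_combination h
    have hp12 : g₁ ^ 12 = 1 := by
      have : (c * g₁) ^ 12 = g₁ ^ 12 := by rw [mul_pow, hc12, one_mul]
      rw [← this, hcg]
      norm_num
    have hcop : Nat.Coprime 12 p := by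
      rw [Nat.coprime_comm, hp.coprime_iff_not_dvd]
      intro hd
      have : p ≤ 12 := Nat.le_of_dvd (by norm_num) hd
      have h5 : p = 5 := by omega
      rw [h5] at hd
      norm_num at hd
    have hg1 : g₁ = 1 := by
      have h1 : orderOf g₁ ∣ 12 := orderOf_dvd_of_pow_eq_one hp12
      have h2 : orderOf g₁ ∣ p := orderOf_dvd_of_pow_eq_one hg₁
      have h3 : orderOf g₁ ∣ 1 := by
        rw [← hcop]
        exact Nat.dvd_gcd h1 h2
      rw [← orderOf_eq_one_iff]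
      exact Nat.dvd_one.mp h3
    rw [hg1, mul_one] at hcg
    rw [hcg] at hc
    norm_num at hc
  have hgu : g₁ * u = 1 := by
    have h5 : (1 + c * g₁) * (g₁ * u - 1) = 0 := by
      rw [f2] at r₁
      linear_combination r₁
    have := (mul_eq_zero.mp h5).resolve_left h1c
    linear_combination this
  have : (g₁ * u) ^ p = 1 := by rw [hgu, one_pow]
  rw [mul_pow, hg₁, one_mul] at this
  exact this

end Pool.Agent.Zab
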